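import Pool.Agent.SepCI.Final
import Pool.Agent.SepCI.Full
import Pool.Agent.SepCI.Krull

set_option autoImplicit false

/-! # Minimal degree curves on very general complete intersections are linear sections -/

namespace Pool.Agent.Results.MP_5dbc9c_ag.LinearSections

open MvPolynomial Filter Topology Finset

attribute [local instance] MvPolynomial.gradedAlgebra

/-- The homogeneous coordinate ring `ℂ[x_0, ..., x_N]` of the projective space `ℙ^N`. -/
abbrev S (N : ℕ) := MvPolynomial (Fin (N + 1)) ℂ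

/-- The space of forms of degree `l` in `N + 1` variables. -/
abbrev Forms (N l : ℕ) : Submodule ℂ (S N) := homogeneousSubmodule (Fin (N + 1)) ℂ l

/-- The Hilbert function of `S / I`: the dimension of the image in `S / I` of the space of forms
of degree `l`. -/
noncomputable def hilb {N : ℕ} (I : Ideal (S N)) (l : ℕ) : ℕ :=
  Module.finrank ℂ ((Forms N l).map (Ideal.Quotient.mkₐ ℂ I).toLinearMap)

/-- `P` is the homogeneous ideal of an integral closed subscheme of `ℙ^N` of dimension one: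
a homogeneous prime ideal with `dim S / P = 2`. -/
structure IsCurve {N : ℕ} (P : Ideal (S N)) : Prop where
  prime : P.IsPrime
  hom : P.IsHomogeneous (homogeneousSubmodule (Fin (N + 1)) ℂ)
  dim : ringKrullDim (S N ⧸ P) = 2

/-- The curve with ideal `P` has degree `e`: its Hilbert function grows like `e * l`. -/
def HasDegree {N : ℕ} (P : Ideal (S N)) (e : ℕ) : Prop :=
  Tendsto (fun l : ℕ => (hilb P l : ℝ) / l) atTop (𝓝 e)

/-- The curve with ideal `P` lies in `X = V(F_1, ..., F_r)` and its degree is at most the degree of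
every curve in `X`. -/
structure IsMinimalDegreeCurve {N r : ℕ} (F : Fin r → S N) (P : Ideal (S N)) : Prop where
  curve : IsCurve P
  mem : ∀ i, F i ∈ P
  min : ∀ P' : Ideal (S N), IsCurve P' → (∀ i, F i ∈ P') →
    ∀ e e' : ℕ, HasDegree P e → HasDegree P' e' → e ≤ e'

/-- The curve with ideal `P` is the scheme-theoretic intersection of `X = V(F_1, ..., F_r)` in
`ℙ^(n+r)` with the linear subspace of dimension `r + 1` cut out by `n - 1` linearly independent
linear forms; even the equality of homogeneous ideals holds. -/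
def IsLinearSection {n r : ℕ} (F : Fin r → S (n + r)) (P : Ideal (S (n + r))) : Prop :=
  ∃ L : Fin (n - 1) → S (n + r), (∀ i, L i ∈ Forms (n + r) 1) ∧ LinearIndependent ℂ L ∧
    P = Ideal.span (Set.range F ∪ Set.range L)

/-- The coefficients of `r` forms of degrees `d_1, ..., d_r`. -/
abbrev Coeffs (N : ℕ) {r : ℕ} (d : Fin r → ℕ) : Type :=
  Σ i : Fin r, {m : Fin (N + 1) →₀ ℕ // m.degree = d i}

/-- The property `Q` holds for very general forms `F_1, ..., F_r` of degrees `d_1, ..., d_r`: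
it holds for all tuples of forms outside a countable union of proper hypersurfaces in the space
of coefficients. -/
def VeryGeneral (N : ℕ) {r : ℕ} (d : Fin r → ℕ) (Q : (Fin r → S N) → Prop) : Prop :=
  ∃ Z : Set (MvPolynomial (Coeffs N d) ℂ), Z.Countable ∧ (∀ z ∈ Z, z ≠ 0) ∧
    ∀ F : Fin r → S N, (∀ i, F i ∈ Forms N (d i)) →
      (∀ z ∈ Z, eval (fun p : Coeffs N d => coeff p.2.1 (F p.1)) z ≠ 0) → Q F

section proofs

theorem chain_prod {N : ℕ} : ∀ (r : ℕ) (F : Fin r → S N) (d : Fin r → ℕ) (P : Ideal (S N))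
    (e : ℕ), SepCI.Chain r F d P → 1 ≤ SepCI.md P → SepCI.Bd P (SepCI.md P) e → ∏ i, d i ≤ e := by
  intro r
  induction r with
  | zero =>
    intro F d P e h hm he
    have := SepCI.Bd_unique hm h.2 he
    simp [← this]
  | succ r ih =>
    intro F d P e h hm he
    obtain ⟨hP, Q, s, e', hQc, hQ, hQP, hmd, hF, hd, hFQ, hFP, hs, he', hse⟩ := h
    have h1 := ih _ _ Q s hQc (by omega) hs
    have h2 := SepCI.Bd_unique hm he' he
    subst h2
    rw [Fin.prod_univ_castSucc]
    exact (Nat.mul_le_mul_right _ h1).trans hse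

theorem md_of_curve {N : ℕ} {P : Ideal (S N)} (h : IsCurve P) : SepCI.md P = 2 := by
  have h1 := SepCI.krull_eq ⟨h.prime, h.hom⟩
  rw [h.dim] at h1
  have h2 : ((2 : ℕ) : WithBot ℕ∞) = ((SepCI.md P : ℕ) : WithBot ℕ∞) := h1
  exact_mod_cast h2.symm

theorem curve_of_md {N : ℕ} {P : Ideal (S N)} (h : SepCI.HP P) (hm : SepCI.md P = 2) :
    IsCurve P := by
  refine ⟨h.prime, h.hom, ?_⟩
  rw [SepCI.krull_eq h, hm]
  rfl

theorem degree_unique {N : ℕ} {P : Ideal (S N)} {e e' : ℕ} (h : HasDegree P e)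
    (h' : HasDegree P e') : e = e' := by
  exact_mod_cast tendsto_nhds_unique h h'

theorem exists_degree {N : ℕ} {P : Ideal (S N)} (h : IsCurve P) :
    ∃ e, SepCI.Bd P 2 e ∧ HasDegree P e := by
  have hm := md_of_curve h
  obtain ⟨e, _, he⟩ := SepCI.exists_Bd (P := P) ⟨h.prime, h.hom⟩ (by omega)
  rw [hm] at he
  exact ⟨e, he, SepCI.tendsto_of_Bd he⟩

theorem main (n r : ℕ) (hn : 1 ≤ n) (d₀ : ℕ)
    (hfull : ∀ (F : Fin r → S (n + r)) (d : Fin r → ℕ) (P : Ideal (S (n + r))) (e : ℕ),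
      Monotone d → (∀ i, d₀ ≤ d i) → SepCI.JGen ⊥ d F → SepCI.HP P → 2 ≤ SepCI.md P →
      (∀ i, F i ∈ P) → SepCI.Bd P (SepCI.md P) e → e ≤ ∏ i, d i → SepCI.Chain r F d P)
    (d : Fin r → ℕ) (hmon : Monotone d) (hd : ∀ i, d₀ < d i)
    (F : Fin r → S (n + r)) (hFd : ∀ i, F i ∈ Forms (n + r) (d i)) (hF : SepCI.JGen ⊥ d F) :
    (∃ P, IsMinimalDegreeCurve F P) ∧
      ∀ P, IsMinimalDegreeCurve F P → IsLinearSection F P ∧ HasDegree P (∏ i, d i) := by
  obtain ⟨P₀, e₀, hP₀, hFP₀, hm₀, hb₀, he₀⟩ := SepCI.exists_curve F d hFd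
    (fun i => by have := hd i; omega) (by omega)
  have hc₀ : IsCurve P₀ := curve_of_md hP₀ hm₀
  constructor
  · classical
    have hex : ∃ e, ∃ P : Ideal (S (n + r)), IsCurve P ∧ (∀ i, F i ∈ P) ∧ HasDegree P e :=
      ⟨e₀, P₀, hc₀, hFP₀, SepCI.tendsto_of_Bd hb₀⟩
    obtain ⟨P, hP, hFP, hPe⟩ := Nat.find_spec hex
    refine ⟨P, hP, hFP, ?_⟩
    intro P' hP' hFP' e e' he he'
    rw [degree_unique he hPe]
    exact Nat.find_min' hex ⟨P', hP', hFP', he'⟩
  · intro P hP
    obtain ⟨e, hb, he⟩ := exists_degree hP.curve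
    have hm := md_of_curve hP.curve
    have hle : e ≤ ∏ i, d i :=
      (hP.min P₀ hc₀ hFP₀ e e₀ he (SepCI.tendsto_of_Bd hb₀)).trans he₀
    have hch : SepCI.Chain r F d P :=
      hfull F d P e hmon (fun i => (hd i).le) hF ⟨hP.curve.prime, hP.curve.hom⟩ (by omega) hP.mem
        (by rw [hm]; exact hb) hle
    have hge : ∏ i, d i ≤ e := chain_prod r F d P e hch (by omega) (by rw [hm]; exact hb)
    refine ⟨?_, by rw [le_antisymm hge hle]; exact he⟩
    have hci := SepCI.ci F d P hch (by omega)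
    have key : ∀ k, k = n - 1 →
        (∃ L : Fin k → S (n + r), (∀ i, L i ∈ SepCI.Sd (n + r) 1) ∧ LinearIndependent ℂ L ∧
          P = Ideal.span (Set.range F ∪ Set.range L)) → IsLinearSection F P := by
      rintro _ rfl h
      exact h
    exact key _ (by omega) hci

end proofs

/-- **Minimal degree curves are linear sections.**
For all `n ≥ 1` and `r ≥ 1` there is a constant `D` such that the following holds for all degrees
`d_1, ..., d_r > D`. For very general forms `F_1, ..., F_r` of degrees `d_1, ..., d_r` in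
`n + r + 1` variables, `X = V(F_1, ..., F_r)` in `ℙ^(n+r)` contains minimal degree curves, every
minimal degree curve in `X` is a scheme-theoretic linear section `X ∩ Λ` with `dim Λ = r + 1`,
and its degree is `d_1 ⋯ d_r`. -/
theorem result (n r : ℕ) (hn : 1 ≤ n) (hr : 1 ≤ r) :
    ∃ D : ℕ, ∀ d : Fin r → ℕ, (∀ i, D < d i) →
      VeryGeneral (n + r) d fun F =>
        (∃ P, IsMinimalDegreeCurve F P) ∧
          ∀ P, IsMinimalDegreeCurve F P → IsLinearSection F P ∧ HasDegree P (∏ i, d i) := by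
  classical
  obtain ⟨d₀, hfull⟩ := SepCI.full_chain (n + r) r hr
  refine ⟨d₀, fun d hd => ?_⟩
  have : Finite (Coeffs (n + r) d) := by
    have : ∀ i : Fin r, Finite (SepCI.Mon (n + r) (d i)) := fun i => inferInstance
    exact inferInstanceAs (Finite (Σ i : Fin r, SepCI.Mon (n + r) (d i)))
  refine ⟨SepCI.ZQ (Coeffs (n + r) d), SepCI.ZQ_countable _, SepCI.ZQ_ne _, ?_⟩
  intro F hF hZ
  have hind := SepCI.algInd_of_ZQ hZ
  -- reorder the degrees increasingly
  set σ := Tuple.sort d with hσ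
  have hmono : Monotone (d ∘ σ) := Tuple.monotone_sort d
  have hindσ : AlgebraicIndependent ℚ (fun p : Σ i : Fin r, SepCI.Mon (n + r) ((d ∘ σ) i) =>
      coeff p.2.1 ((F ∘ σ) p.1)) := by
    refine hind.comp (fun p : Σ i : Fin r, SepCI.Mon (n + r) ((d ∘ σ) i) =>
      (⟨σ p.1, p.2⟩ : Coeffs (n + r) d)) ?_
    rintro ⟨i, m⟩ ⟨i', m'⟩ h
    simp only [Sigma.mk.injEq] at h
    obtain ⟨h1, h2⟩ := h
    obtain rfl := σ.injective h1
    obtain rfl := eq_of_heq h2
    rfl
  have hgen : SepCI.JGen ⊥ (d ∘ σ) (F ∘ σ) :=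
    SepCI.jgen_of_algInd (d ∘ σ) (F ∘ σ) (fun i => hF (σ i)) hindσ
  have hrange : Set.range (F ∘ σ) = Set.range F := σ.surjective.range_comp F
  have hmin : ∀ P, IsMinimalDegreeCurve (F ∘ σ) P ↔ IsMinimalDegreeCurve F P := by
    have hall : ∀ P : Ideal (S (n + r)), (∀ i, (F ∘ σ) i ∈ P) ↔ ∀ i, F i ∈ P := by
      intro P
      constructor
      · intro h i
        have := h (σ.symm i)
        simpa using this
      · intro h i
        exact h (σ i)
    intro P
    constructor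
    · rintro ⟨h1, h2, h3⟩
      exact ⟨h1, (hall P).1 h2, fun P' hP' hF' => h3 P' hP' ((hall P').2 hF')⟩
    · rintro ⟨h1, h2, h3⟩
      exact ⟨h1, (hall P).2 h2, fun P' hP' hF' => h3 P' hP' ((hall P').1 hF')⟩
  have hprod : ∏ i, (d ∘ σ) i = ∏ i, d i := Equiv.prod_comp σ d
  obtain ⟨⟨P, hP⟩, hall⟩ := main n r hn d₀ hfull (d ∘ σ) hmono (fun i => hd (σ i)) (F ∘ σ)
    (fun i => hF (σ i)) hgen
  refine ⟨⟨P, (hmin P).1 hP⟩, ?_⟩
  intro P hP
  obtain ⟨⟨L, hL1, hL2, hL3⟩, hdeg⟩ := hall P ((hmin P).2 hP)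
  rw [hprod] at hdeg
  rw [hrange] at hL3
  exact ⟨⟨L, hL1, hL2, hL3⟩, hdeg⟩

end Pool.Agent.Results.MP_5dbc9c_ag.LinearSections
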